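import Pool.Agent.Q49.WU.Origin

/-!
# Representations in the cohomology of proper smooth schemes, without twists, and hypergraph cubics

Let `F` be a number field and `l` a prime. Let `A` be the abelian category of finite-dimensional continuous
representations of `G_F` over `ℚ̄_l`, with the Tate twists `M ↦ M(a)`. For a separated scheme `X` of finite
type over `ℚ` and integers `w`, `m`, `n` let `(D w).H m n X` be the object `Gr^W_{w+2m} H^n_c(X_ℚ̄, ℚ̄_l)`,
restricted to `G_F`. For smooth projective `Y` over `ℚ` the object `(D w).H 0 n Y` is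
`H^w(Y_ℚ̄, ℚ̄_l)` if `n = w`, and zero for all other `n`.

Let `ρ` be irreducible and pure of weight `w` (at almost all places, as every `ρ` which satisfies condition
2. or 3. of question Q1 for this `w`). Then `ρ` is a subquotient of a twist `Gr^W_{w+2m} H^n_c(X)(a)` only for
`a = m` (hypothesis `weight`). Condition 3. of question Q1 for `ρ` says that `ρ` is a subquotient of
`H^w(Y_F̄, ℚ̄_l)` for a smooth projective scheme `Y` over `F` (a proper smooth scheme is dominated by a smooth
projective one of the same dimension, and `i = w` by purity), and equivalently for one over `ℚ`, as `Y` is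
a union of connected components of `Y' ×_ℚ F` for the scheme `Y' = Y` over `ℚ`:
`∃ Y, SmoothProj Y ∧ OccursAt (D w) ρ 0 Y`. No Tate twist of the cohomology is allowed here: this is the
difference between condition 3. and the geometric origin of `ρ` up to twists.

**Theorem.** Let `ρ` be irreducible and pure of weight `w`, and not isomorphic to `ℚ̄_l(-w/2)` (hypothesis
`point`; for this character all conditions of Q1 are true). The following are equivalent.

1. Condition 3. of question Q1: there are a proper smooth scheme `Y` over `F` and an `i ≥ 0` such that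
   `ρ` is a subquotient of `H^i(Y_F̄, ℚ̄_l)`.
2. For some trilinear form `T` with rational coefficients, in `a` variables `x_p` and any numbers of
   variables `y_q`, `z_r`, and some `n`, `ρ` is a subquotient of `Gr^W_{w+2(a-1)} H^n_c(T = 1)(a - 1)`, for
   the smooth affine cubic hypersurface `T(x, y, z) = 1`.
3. For some finite set `H` of triples and some `n`, `ρ` is a subquotient of
   `Gr^W_{w+2(a-1)} H^n_c(X_H)(a - 1)`, for `X_H : ∑_{(p, q, r) ∈ H} x_p y_q z_r = 1` with `a` variables `x_p`.

In particular, if `C` is a set of such representations `ρ` (for example those which satisfy condition 1. or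
condition 2. of question Q1), condition 3. is true for all `ρ` in `C` if and only if every `ρ` in `C`
occurs in 3. above.
-/

set_option autoImplicit false

open CategoryTheory CategoryTheory.Limits AlgebraicGeometry Pool.Agent.Y116.UV Pool.Agent.Z125.UN
  Pool.Agent.Q193.LT Pool.Agent.Q49.WU

universe v u

namespace Pool.Agent.Results.MP_395897_nt.EffectiveOrigin

/-- `ρ` is a subquotient of the cohomology in degree `w` of a smooth projective scheme. -/
def ProjOrigin {A : Type u} [Category.{v} A] (D : WeightData ℚ A) (ρ : A) : Prop :=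
  ∃ Y : Sch ℚ, SmoothProj Y ∧ OccursAt D ρ 0 Y

/-- `ρ` is a subquotient of `Gr^W_{w+2(a-1)} H^n_c(T = 1)(a - 1)` for some rational form `T`. -/
def CubicOrigin {A : Type u} [Category.{v} A] (D : WeightData ℚ A) (ρ : A) : Prop :=
  ∃ (a b c : ℕ) (T : Fin a → Fin b → Fin c → ℚ), OccursAt D ρ (a - 1) (hypS T)

/-- `ρ` is a subquotient of `Gr^W_{w+2(a-1)} H^n_c(X_H)(a - 1)` for some finite set `H` of triples. -/
def HypergraphOrigin {A : Type u} [Category.{v} A] (D : WeightData ℚ A) (ρ : A) : Prop :=
  ∃ (a b c : ℕ) (H : Finset (Fin a × Fin b × Fin c)), OccursAt D ρ (a - 1) (tripS ℚ H)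

/-- **Effective geometric origin and hypergraph cubics.** See the explanations above. -/
theorem result {A : Type u} [Category.{v} A] [Abelian A] {D : ℤ → WeightData ℚ A}
    (h : ∀ w, IsWeight (D w)) (hg : ∀ w, WGenerated (D w)) :
    (∀ (w : ℤ) (ρ : A), Simple ρ → HasWeight (D w) ρ →
      (∀ N, ¬ OccursAt (D w) ρ N (aff ℚ ℚ)) →
      (ProjOrigin (D w) ρ ↔ CubicOrigin (D w) ρ) ∧
      (ProjOrigin (D w) ρ ↔ HypergraphOrigin (D w) ρ)) ∧
    ∀ C : ℤ → A → Prop, (∀ w ρ, C w ρ → Simple ρ ∧ HasWeight (D w) ρ ∧
        ∀ N, ¬ OccursAt (D w) ρ N (aff ℚ ℚ)) →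
      ((∀ w ρ, C w ρ → ProjOrigin (D w) ρ) ↔ ∀ w ρ, C w ρ → HypergraphOrigin (D w) ρ) := by
  have key : ∀ (w : ℤ) (ρ : A), Simple ρ → HasWeight (D w) ρ →
      (∀ N, ¬ OccursAt (D w) ρ N (aff ℚ ℚ)) →
      (ProjOrigin (D w) ρ ↔ CubicOrigin (D w) ρ) ∧
      (ProjOrigin (D w) ρ ↔ HypergraphOrigin (D w) ρ) := by
    intro w ρ hρ hw hpt
    have h1 := origin_forms (h w) (hg w) hw hpt 0
    have h2 := origin_graphs (h w) (hg w) hw hpt frac_rat 0
    simp only [zero_add] at h1 h2
    exact ⟨h1, h2⟩
  refine ⟨key, fun C hC => ?_⟩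
  constructor
  · intro h1 w ρ hρ
    obtain ⟨h2, h3, h4⟩ := hC w ρ hρ
    exact (key w ρ h2 h3 h4).2.mp (h1 w ρ hρ)
  · intro h1 w ρ hρ
    obtain ⟨h2, h3, h4⟩ := hC w ρ hρ
    exact (key w ρ h2 h3 h4).2.mpr (h1 w ρ hρ)

end Pool.Agent.Results.MP_395897_nt.EffectiveOrigin
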