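import Mathlib
import Pool.Agent.Q112.PI.Odd

/-!
# Effective origin for odd representations of rank two which are potentially invariant up to twist

`F` is any number field, `W` and `H` are the absolute Galois groups of `ℚ` and `F`, `l ≥ 5`, `k` is
an algebraic closure of the field of `l`-adic numbers, `c` is a complex conjugation in `W`, `L` is a
finite Galois extension of `ℚ` containing `F` and `A` its absolute Galois group. Let
`ρ : H → GL₂(k)` satisfy condition 1 of Q1 and have two different Hodge-Tate weights at some
embedding. If over `L` the representation `ρ` is irreducible, without nontrivial selftwist,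
isomorphic to a twist of each of its conjugates under `W`, and conjugation by `c` changes its
projectivisation, then `ρ` is a twist of the restriction of the representation of a classical
newform, and it satisfies the conditions 2 and 3.
-/

set_option autoImplicit false

namespace Pool.Agent.Results.MP_395897_nt.InvariantRankTwo

open Matrix Q112PI

variable {W : Type} [Group W] {k : Type} [Field k]

/-- The published theorems. `good`: continuous representations of `H` which are unramified almost
everywhere, de Rham at the places over `l` with Hodge-Tate weights `≥ 0` and with two different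
Hodge-Tate weights at some embedding; `geoQ`: continuous representations of `W` which are unramified
almost everywhere and de Rham at `l` with different Hodge-Tate weights; `modQ`: twists of the
representations of classical newforms of weight at least two; `pure`, `effective`: the conditions 2
and 3 of Q1. -/
structure KnownTheorems (H : Subgroup W) (c : W) (geoQ modQ : (W →* GL (Fin 2) k) → Prop)
    (good pure effective : (H →* GL (Fin 2) k) → Prop) : Prop where
  /-- Tate, Patrikis: a projective representation of `W` whose restriction to the open subgroup `H`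
  is the projectivisation of a representation `ρ` with `good ρ` lifts to a geometric
  representation -/
  lift : ∀ (P : W → GL (Fin 2) k) (ρ : H →* GL (Fin 2) k), IsProj P → good ρ →
    (∀ h : H, P h = ρ h) → ∃ ρ₀ : W →* GL (Fin 2) k, geoQ ρ₀ ∧
      ∀ g : W, ∃ z : kˣ, (ρ₀ g : Matrix (Fin 2) (Fin 2) k) = (z : k) • (P g : Matrix _ _ k)
  /-- the Fontaine-Mazur conjecture for odd irreducible representations of `W` of dimension two with
  different Hodge-Tate weights (Kisin, Emerton, Pan) -/
  fontaine_mazur : ∀ ρ₀ : W →* GL (Fin 2) k, geoQ ρ₀ → Irr ρ₀ →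
    (ρ₀ c : Matrix (Fin 2) (Fin 2) k).det = -1 → modQ ρ₀
  /-- if `ρ` is a twist of the representation of a newform `g` and has Hodge-Tate weights `≥ 0`, then
  it is the twist by an algebraic Hecke character with Hodge-Tate weights `≥ 0`, so it occurs in the
  cohomology of the product of a Kuga-Sato variety with abelian varieties with complex
  multiplication (Deligne), and it is integral and pure at all places (Carayol, Saito) -/
  motive : ∀ (ρ₀ : W →* GL (Fin 2) k) (ρ : H →* GL (Fin 2) k), modQ ρ₀ → good ρ →
    IsTwist (ρ₀.comp H.subtype) ρ → pure ρ ∧ effective ρ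

theorem result [IsAlgClosed k] {H A : Subgroup W} [A.Normal] (hAH : A ≤ H) {c : W}
    (hc : c * c = 1) {geoQ modQ : (W →* GL (Fin 2) k) → Prop}
    {good pure effective : (H →* GL (Fin 2) k) → Prop} (known : KnownTheorems H c geoQ modQ good pure effective)
    (ρ : H →* GL (Fin 2) k) (hgood : good ρ)
    (hirr : Irr (ρ.comp (Subgroup.inclusion hAH)))
    (hns : NoSelfTwist (ρ.comp (Subgroup.inclusion hAH)))
    (hinv : InvUpToTwist (ρ.comp (Subgroup.inclusion hAH)))
    (hodd : ¬ ∃ χ : A →* kˣ, ∀ a : A,
      (ρ (Subgroup.inclusion hAH (MulAut.conjNormal c a)) : Matrix (Fin 2) (Fin 2) k)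
        = (χ a : k) • (ρ (Subgroup.inclusion hAH a) : Matrix (Fin 2) (Fin 2) k)) :
    (∃ ρ₀ : W →* GL (Fin 2) k, modQ ρ₀ ∧ IsTwist (ρ₀.comp H.subtype) ρ) ∧ pure ρ ∧ effective ρ := by
  obtain ⟨P, hP, hPρ⟩ := exists_proj hAH ρ hirr hns hinv
  obtain ⟨ρ₀, hρ₀, hlift⟩ := known.lift P ρ hP hgood hPρ
  have htw : IsTwist (ρ₀.comp H.subtype) ρ := by
    refine twist_of_lift ρ ρ₀ fun x => ?_
    obtain ⟨z, hz⟩ := hlift x
    exact ⟨z, by rw [hz, hPρ]⟩
  have hirr0 : Irr ρ₀ := by
    obtain ⟨χ, hχ⟩ := htw
    intro U hU
    apply hirr U
    intro a u hu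
    have h1 := hχ (Subgroup.inclusion hAH a)
    show (ρ (Subgroup.inclusion hAH a) : Matrix (Fin 2) (Fin 2) k) *ᵥ u ∈ U
    rw [h1, Matrix.smul_mulVec]
    exact U.smul_mem _ (hU _ u hu)
  have hmod : modQ ρ₀ := known.fontaine_mazur ρ₀ hρ₀ hirr0 (det_extension hAH htw hc hodd)
  exact ⟨⟨ρ₀, hmod, htw⟩, known.motive ρ₀ ρ hmod hgood htw⟩

end Pool.Agent.Results.MP_395897_nt.InvariantRankTwo
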