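import Mathlib
import Pool.Agent.Q21.FM.Local
import Pool.Agent.Q21.FM.Global
import Pool.Agent.Q21.FM.Defs

/-!
An `l`-adic character of `Gal(ℚ̄/ℚ)` which is unramified, integral and pure of weight `1` at every
prime `q ≠ l` but which is not de Rham at `l` (`l` any odd prime).
-/

set_option autoImplicit false

namespace Pool.Agent.Results.MP_395897_nt.PureNotDeRham

open Pool.Agent.W292.FM Pool.Agent.Q21.FM NumberField Polynomial

variable {l : ℕ} [hl : Fact l.Prime]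

/-- `x ∈ B_dR^n` is invariant under `G = Gal(ℚ̄_l/ℚ_l)`, which acts on `B_dR^n = V ⊗ B_dR` by
`x ↦ ρ(g) (g x)`. -/
def Invariant {n : ℕ} (ρ : GQp l →* GL (Fin n) ℚ_[l]) (x : Fin n → BdR l) : Prop :=
  ∀ (g : GQp l) (i : Fin n),
    ∑ j, algebraMap ℚ_[l] (BdR l) ((ρ g : Matrix (Fin n) (Fin n) ℚ_[l]) i j) * BdR.act l g (x j) =
      x i

/-- `ρ` is de Rham: `D_dR(V) = (V ⊗ B_dR)^G` contains `n = dim V` vectors which are linearly
independent over `ℚ_l` (one always has `dim D_dR(V) ≤ dim V`). -/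
def IsDeRham {n : ℕ} (ρ : GQp l →* GL (Fin n) ℚ_[l]) : Prop :=
  ∃ v : Fin n → Fin n → BdR l, LinearIndependent ℚ_[l] v ∧ ∀ k, Invariant ρ (v k)

/-- `ρ` is unramified at `q`: the inertia group of every prime of `ℚ̄` above `q` acts
trivially. -/
def UnramifiedAt {n : ℕ} (ρ : GQ →* GL (Fin n) ℚ_[l]) (q : ℕ) : Prop :=
  ∀ Q : Ideal ZZ, Q.IsPrime → (q : ZZ) ∈ Q → ∀ σ ∈ Q.inertia GQ, ρ σ = 1

/-- Every eigenvalue `α` of a geometric Frobenius at `q` is an algebraic integer all of whose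
complex conjugates have absolute value `q^{w/2}`. -/
def FrobPureAt {n : ℕ} (ρ : GQ →* GL (Fin n) ℚ_[l]) (q : ℕ) (w : ℤ) : Prop :=
  ∀ Q : Ideal ZZ, Q.IsPrime → (q : ZZ) ∈ Q → ∀ σ : GQ, IsArithFrobAt ℤ σ Q →
    ∀ α : PadicAlgCl l, ((ρ σ⁻¹ : Matrix (Fin n) (Fin n) ℚ_[l]).charpoly.map
      (algebraMap ℚ_[l] (PadicAlgCl l))).IsRoot α →
      IsIntegral ℤ α ∧ ∀ z : ℂ, aeval z (minpoly ℚ α) = 0 → ‖z‖ = (q : ℝ) ^ ((w : ℝ) / 2)

instance isAlgClosureQ : IsAlgClosure ℚ (AlgebraicClosure ℚ) := by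
  have h := AlgebraicClosure.instIsAlgClosure ℚ
  convert! h

instance normalQ : Normal ℚ (AlgebraicClosure ℚ) := IsAlgClosure.normal ℚ (AlgebraicClosure ℚ)

/-- The map of absolute Galois groups given by restriction along an embedding `ι : ℚ̄ → ℚ̄_l`. -/
noncomputable def res (ι : AlgebraicClosure ℚ →+* PadicAlgCl l) : GQp l →* GQ :=
  letI := ι.toAlgebra
  (AlgEquiv.restrictNormalHom (F := ℚ) (K₁ := PadicAlgCl l) (AlgebraicClosure ℚ)).comp
    (AlgEquiv.restrictScalarsHom ℚ)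

theorem res_spec (ι : AlgebraicClosure ℚ →+* PadicAlgCl l) (g : GQp l)
    (x : AlgebraicClosure ℚ) : ι (res ι g x) = g (ι x) := by
  let _ := ι.toAlgebra
  exact AlgEquiv.restrictNormal_commutes (AlgEquiv.restrictScalars ℚ g) (AlgebraicClosure ℚ) x

theorem chiQ_res (ι : AlgebraicClosure ℚ →+* PadicAlgCl l) (g : GQp l) :
    chiQ l (res ι g) = chi l g := by
  apply Units.ext
  refine chiQ_unique _ _ fun n t ht => ι.injective ?_
  rw [res_spec, map_pow]
  exact chi_spec g (by rw [← map_pow, ht, map_one])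

/-- `ℤ_l^× → GL_1(ℚ_l)` -/
noncomputable def toGL (l : ℕ) [Fact l.Prime] : ℤ_[l]ˣ →* GL (Fin 1) ℚ_[l] :=
  Units.map ((Matrix.scalar (Fin 1)).comp (algebraMap ℤ_[l] ℚ_[l])).toMonoidHom

theorem toGL_val (u : ℤ_[l]ˣ) : (toGL l u : Matrix (Fin 1) (Fin 1) ℚ_[l]) =
    Matrix.scalar (Fin 1) ((u : ℤ_[l]) : ℚ_[l]) := rfl

theorem toGL_continuous : Continuous (toGL l) := by
  refine Continuous.units_map _ ?_
  change Continuous fun x : ℤ_[l] => Matrix.diagonal fun _ : Fin 1 => ((x : ℤ_[l]) : ℚ_[l])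
  exact Continuous.matrix_diagonal (continuous_pi fun _ => continuous_subtype_val)

/-- The character `⟨χ⟩^{-1/2}`. -/
noncomputable def rho (h2 : l ≠ 2) : GQ →* GL (Fin 1) ℚ_[l] :=
  (toGL l).comp (invMonoidHom.comp ((half h2).comp (chiQ l)))

theorem rho_continuous (h2 : l ≠ 2) : Continuous (rho (l := l) h2) :=
  toGL_continuous.comp (continuous_inv.comp ((half_continuous h2).comp (chiQ_continuous l)))

theorem rho_unram (h2 : l ≠ 2) {q : ℕ} (hq : q.Prime) (hql : q ≠ l) :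
    UnramifiedAt (rho (l := l) h2) q := by
  intro Q hQ h σ hσ
  change toGL l (half h2 (chiQ l σ))⁻¹ = 1
  rw [chiQ_inertia hq hql h hσ, map_one, inv_one, map_one]

theorem rho_inv_val (h2 : l ≠ 2) (σ : GQ) :
    (rho (l := l) h2 σ⁻¹ : Matrix (Fin 1) (Fin 1) ℚ_[l]) =
      Matrix.scalar (Fin 1) (((half h2 (chiQ l σ) : ℤ_[l]ˣ) : ℤ_[l]) : ℚ_[l]) := by
  rw [← toGL_val]
  congr 1
  change toGL l (half h2 (chiQ l σ⁻¹))⁻¹ = toGL l (half h2 (chiQ l σ))
  rw [map_inv (chiQ l), map_inv (half h2), inv_inv]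

theorem rho_pure (h2 : l ≠ 2) {q : ℕ} (hq : q.Prime) (hql : q ≠ l) :
    FrobPureAt (rho (l := l) h2) q 1 := by
  intro Q hQ h σ hσ α hα
  have hl2 := hl.out.two_le
  rw [rho_inv_val] at hα
  set u : ℤ_[l]ˣ := half h2 (chiQ l σ) with hu
  have hα1 : α = algebraMap ℚ_[l] (PadicAlgCl l) ((u : ℤ_[l]) : ℚ_[l]) := by
    rw [Matrix.scalar_apply, Matrix.charpoly_diagonal] at hα
    simp only [Finset.univ_unique, Finset.prod_singleton, Polynomial.map_sub, Polynomial.map_X,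
      Polynomial.map_C, root_X_sub_C] at hα
    exact hα.symm
  have h3 : (u : ℤ_[l]) ^ (2 * (l - 1)) = (q : ℤ_[l]) ^ (l - 1) := by
    have h4 := congrArg Units.val (half_pow h2 (chiQ l σ))
    push_cast at h4
    rw [chiQ_frob hq hql h hσ] at h4
    exact h4
  have h5 : α ^ (2 * (l - 1)) = (q : PadicAlgCl l) ^ (l - 1) := by
    rw [hα1, ← map_pow, ← PadicInt.coe_pow, h3]
    simp
  have hl0 : l - 1 ≠ 0 := by omega
  refine ⟨?_, fun z hz => ?_⟩
  · refine IsIntegral.of_pow (n := 2 * (l - 1)) (by omega) ?_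
    rw [h5]
    have h6 : IsIntegral ℤ (algebraMap ℤ (PadicAlgCl l) (q : ℤ)) := isIntegral_algebraMap
    rw [map_natCast] at h6
    exact h6.pow _
  · have h6 : minpoly ℚ α ∣ X ^ (2 * (l - 1)) - C ((q : ℚ) ^ (l - 1)) := by
      apply minpoly.dvd
      simp [h5]
    have h7 : z ^ (2 * (l - 1)) = (q : ℂ) ^ (l - 1) := by
      obtain ⟨r, hr⟩ := h6
      have h8 := congrArg (aeval z) hr
      rw [map_mul, hz, zero_mul] at h8
      simpa [sub_eq_zero] using h8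
    have h8 : (‖z‖ ^ 2) ^ (l - 1) = (q : ℝ) ^ (l - 1) := by
      have := congrArg norm h7
      rw [norm_pow, norm_pow, Complex.norm_natCast, pow_mul] at this
      exact this
    have h9 : ‖z‖ ^ 2 = (q : ℝ) :=
      (pow_left_inj₀ (by positivity) (by positivity) hl0).1 h8
    rw [Int.cast_one, ← Real.sqrt_eq_rpow, ← h9, Real.sqrt_sq (norm_nonneg _)]

theorem rho_res (h2 : l ≠ 2) (ι : AlgebraicClosure ℚ →+* PadicAlgCl l) {x : Fin 1 → BdR l}
    (hx : Invariant ((rho (l := l) h2).comp (res ι)) x) : x = 0 := by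
  have key : x 0 = 0 := by
    refine no_period h2 (x 0) fun g => ?_
    have h1 := hx g 0
    have h3 : (((rho (l := l) h2).comp (res ι)) g : Matrix (Fin 1) (Fin 1) ℚ_[l]) =
        Matrix.scalar (Fin 1) ((((half h2 (chi l g))⁻¹ : ℤ_[l]ˣ) : ℤ_[l]) : ℚ_[l]) := by
      rw [← toGL_val, ← chiQ_res ι g]
      rfl
    rw [h3] at h1
    simp only [Finset.univ_unique, Finset.sum_singleton,
      Matrix.scalar_apply, Matrix.diagonal_apply_eq, Fin.default_eq_zero] at h1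
    change BdR.act l g (x 0) =
      algebraMap ℚ_[l] (BdR l) (((half h2 (chi l g) : ℤ_[l]ˣ) : ℤ_[l]) : ℚ_[l]) * x 0
    conv_rhs => rw [← h1]
    rw [← mul_assoc, ← map_mul, ← PadicInt.coe_mul, ← Units.val_mul, mul_inv_cancel]
    simp
  funext i
  rw [Subsingleton.elim i 0]
  exact key

theorem rho_not (h2 : l ≠ 2) (ι : AlgebraicClosure ℚ →+* PadicAlgCl l) :
    ¬ IsDeRham ((rho (l := l) h2).comp (res ι)) := by
  rintro ⟨v, hv, h⟩
  have : Nontrivial ℚ_[l] := inferInstance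
  exact hv.ne_zero 0 (rho_res h2 ι (h 0))

/-- For every odd prime `l` there is a continuous character `ρ` of `Gal(ℚ̄/ℚ)` with values in
`GL_1(ℚ_l)` which at every prime `q ≠ l` is unramified, integral and pure of weight `1`, but
which is not de Rham at `l`. -/
theorem result (l : ℕ) [Fact l.Prime] (h2 : l ≠ 2) : ∃ ρ : GQ →* GL (Fin 1) ℚ_[l],
    Continuous ρ ∧ (∀ q : ℕ, q.Prime → q ≠ l → UnramifiedAt ρ q ∧ FrobPureAt ρ q 1) ∧
      ∀ ι : AlgebraicClosure ℚ →+* PadicAlgCl l, ¬ IsDeRham (ρ.comp (res ι)) :=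
  ⟨rho h2, rho_continuous h2, fun _ hq hql => ⟨rho_unram h2 hq hql, rho_pure h2 hq hql⟩,
    rho_not h2⟩

end Pool.Agent.Results.MP_395897_nt.PureNotDeRham
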